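import Mathlib

/-!
# Iterated monodromy groups of post-critically finite polynomials: definitions

`f` is a complex polynomial, `t` a base point.
-/

set_option autoImplicit false

open Polynomial unitInterval

namespace PCF

/-- The `n`-th iterate of the polynomial `f`, as a function `ℂ → ℂ`. -/
noncomputable def it (f : ℂ[X]) (n : ℕ) (z : ℂ) : ℂ := (fun x => f.eval x)^[n] z

/-- The post-critical set of `f`: all `fⁿ(c)` with `n ≥ 1` and `c` a critical point. -/
def postCrit (f : ℂ[X]) : Set ℂ :=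
  {z | ∃ c : ℂ, f.derivative.eval c = 0 ∧ ∃ n : ℕ, 1 ≤ n ∧ it f n c = z}

/-- The vertices of the tree `T_f`: pairs `(n, z)` with `fⁿ(z) = t` (`n` is the level). -/
def Vertex (f : ℂ[X]) (t : ℂ) : Type := {v : ℕ × ℂ // it f v.1 v.2 = t}

/-- The path `γ` acts on the vertices of `T_f` by path lifting as the permutation `g`: the lift
of `γ` by `fⁿ` starting at the vertex `(n, z)` ends at the vertex `g (n, z)`. -/
def ActsAs (f : ℂ[X]) (t : ℂ) (γ : C(I, ℂ)) (g : Equiv.Perm (Vertex f t)) : Prop :=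
  ∀ v : Vertex f t, (g v).1.1 = v.1.1 ∧
    ∃ Γ : C(I, ℂ), Γ 0 = v.1.2 ∧ Γ 1 = (g v).1.2 ∧ ∀ s, it f v.1.1 (Γ s) = γ s

/-- The iterated monodromy group of `f` with base point `t`, as a group of permutations of the
vertices of `T_f`: it consists of the permutations induced by the loops at `t` that avoid the
post-critical set. -/
def IMG (f : ℂ[X]) (t : ℂ) : Subgroup (Equiv.Perm (Vertex f t)) :=
  Subgroup.closure {g | ∃ γ : C(I, ℂ), γ 0 = t ∧ γ 1 = t ∧ (∀ s, γ s ∉ postCrit f) ∧
    ActsAs f t γ g}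

/-- The vertex `w` lies in the subtree rooted at `v`. -/
def InSubtree {f : ℂ[X]} {t : ℂ} (v w : Vertex f t) : Prop :=
  v.1.1 ≤ w.1.1 ∧ it f (w.1.1 - v.1.1) w.1.2 = v.1.2

/-- The rigid stabiliser of the vertex `v` in `G`. -/
def rist {f : ℂ[X]} {t : ℂ} (G : Subgroup (Equiv.Perm (Vertex f t))) (v : Vertex f t) :
    Subgroup (Equiv.Perm (Vertex f t)) where
  carrier := {g | g ∈ G ∧ ∀ w, ¬ InSubtree v w → g w = w}
  one_mem' := ⟨G.one_mem, fun _ _ => rfl⟩
  mul_mem' := fun {a b} ha hb => ⟨G.mul_mem ha.1 hb.1, fun w hw => by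
    rw [Equiv.Perm.mul_apply, hb.2 w hw, ha.2 w hw]⟩
  inv_mem' := fun {a} ha => ⟨G.inv_mem ha.1, fun w hw => by
    rw [Equiv.Perm.inv_eq_iff_eq, ha.2 w hw]⟩

/-- The subgroup generated by the rigid stabilisers of the vertices of level `n`. -/
def ristLevel {f : ℂ[X]} {t : ℂ} (G : Subgroup (Equiv.Perm (Vertex f t))) (n : ℕ) :
    Subgroup (Equiv.Perm (Vertex f t)) :=
  ⨆ v : {v : Vertex f t // v.1.1 = n}, rist G v.1

/-- `G` is a branch group with respect to its action on `T_f`: it acts transitively on every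
level and every `ristLevel G n` has finite index in `G`. -/
def IsBranch {f : ℂ[X]} {t : ℂ} (G : Subgroup (Equiv.Perm (Vertex f t))) : Prop :=
  (∀ v w : Vertex f t, v.1.1 = w.1.1 → ∃ g ∈ G, g v = w) ∧
    ∀ n : ℕ, (ristLevel G n).relIndex G ≠ 0

end PCF
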