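import Mathlib

/-!
# Self-similar actions (basic API)

`G` acts on the words `List X`; `act g x` is the action on letters and `sec g x` the section.
-/

set_option autoImplicit false

namespace PCF

/-- A self-similar action of the group `G` on the tree of words over the alphabet `X`: the element
`g` sends the word `x :: w` to `act g x :: (sec g x) w`. -/
structure SelfSim (G X : Type) [Group G] where
  act : G →* Equiv.Perm X
  sec : G → X → G
  sec_mul : ∀ g h x, sec (g * h) x = sec g (act h x) * sec h x

namespace SelfSim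

variable {G X : Type} [Group G] (S : SelfSim G X)

/-- Action on words. -/
def wact : G → List X → List X
  | _, [] => []
  | g, x :: w => S.act g x :: wact (S.sec g x) w

/-- Section at a word. -/
def wsec : G → List X → G
  | g, [] => g
  | g, x :: w => wsec (S.sec g x) w

@[simp] theorem wact_nil (g : G) : S.wact g [] = [] := rfl
@[simp] theorem wact_cons (g : G) (x : X) (w : List X) :
    S.wact g (x :: w) = S.act g x :: S.wact (S.sec g x) w := rfl
@[simp] theorem wsec_nil (g : G) : S.wsec g [] = g := rfl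
@[simp] theorem wsec_cons (g : G) (x : X) (w : List X) :
    S.wsec g (x :: w) = S.wsec (S.sec g x) w := rfl

@[simp] theorem sec_one (x : X) : S.sec 1 x = 1 := by
  have h := S.sec_mul 1 1 x
  simpa using h

@[simp] theorem length_wact (g : G) (w : List X) : (S.wact g w).length = w.length := by
  induction w generalizing g with
  | nil => rfl
  | cons x w ih => simp [ih]

@[simp] theorem wact_one (w : List X) : S.wact 1 w = w := by
  induction w with
  | nil => rfl
  | cons x w ih => simp [ih]

@[simp] theorem wsec_one (w : List X) : S.wsec 1 w = 1 := by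
  induction w with
  | nil => rfl
  | cons x w ih => simp [ih]

theorem wact_mul (g h : G) (w : List X) : S.wact (g * h) w = S.wact g (S.wact h w) := by
  induction w generalizing g h with
  | nil => rfl
  | cons x w ih => simp [S.sec_mul, ih]

theorem wsec_mul (g h : G) (w : List X) :
    S.wsec (g * h) w = S.wsec g (S.wact h w) * S.wsec h w := by
  induction w generalizing g h with
  | nil => rfl
  | cons x w ih => simp [S.sec_mul, ih]

theorem wact_append (g : G) (u v : List X) :
    S.wact g (u ++ v) = S.wact g u ++ S.wact (S.wsec g u) v := by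
  induction u generalizing g with
  | nil => rfl
  | cons x u ih => simp [ih]

theorem wsec_append (g : G) (u v : List X) : S.wsec g (u ++ v) = S.wsec (S.wsec g u) v := by
  induction u generalizing g with
  | nil => rfl
  | cons x u ih => simp [ih]

@[simp] theorem wact_inv_wact (g : G) (w : List X) : S.wact g⁻¹ (S.wact g w) = w := by
  rw [← S.wact_mul]; simp

@[simp] theorem wact_wact_inv (g : G) (w : List X) : S.wact g (S.wact g⁻¹ w) = w := by
  rw [← S.wact_mul]; simp

theorem wact_injective (g : G) : Function.Injective (S.wact g) := by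
  intro u v h
  rw [← S.wact_inv_wact g u, h, S.wact_inv_wact]

theorem wact_eq_iff (g : G) (u v : List X) : S.wact g u = v ↔ u = S.wact g⁻¹ v := by
  constructor
  · rintro rfl; simp
  · rintro rfl; simp

theorem wsec_inv (g : G) (w : List X) : S.wsec g⁻¹ w = (S.wsec g (S.wact g⁻¹ w))⁻¹ := by
  have h := S.wsec_mul g g⁻¹ w
  rw [mul_inv_cancel, wsec_one] at h
  exact eq_inv_of_mul_eq_one_right h.symm

theorem wsec_conj (g h : G) (w : List X) :
    S.wsec (g * h * g⁻¹) (S.wact g w) =
      S.wsec g (S.wact h w) * S.wsec h w * (S.wsec g w)⁻¹ := by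
  rw [S.wsec_mul, S.wsec_mul, S.wact_inv_wact, S.wsec_inv]
  simp

/-- The stabiliser of a word. -/
def St (w : List X) : Subgroup G where
  carrier := {g | S.wact g w = w}
  one_mem' := by simp
  mul_mem' := by
    intro a b ha hb
    simp only [Set.mem_ofPred_eq] at *
    rw [S.wact_mul, hb, ha]
  inv_mem' := by
    intro a ha
    simp only [Set.mem_ofPred_eq] at *
    conv_lhs => rw [← ha]
    simp

@[simp] theorem mem_St {w : List X} {g : G} : g ∈ S.St w ↔ S.wact g w = w := Iff.rfl

/-- The section homomorphism on the stabiliser of a word. -/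
def secHom (w : List X) : S.St w →* G where
  toFun g := S.wsec g w
  map_one' := by simp
  map_mul' a b := by
    have hb : S.wact (b : G) w = w := b.2
    simp [S.wsec_mul, hb]

@[simp] theorem secHom_apply (w : List X) (g : S.St w) : S.secHom w g = S.wsec g w := rfl

/-- `K_w`: the elements fixing `w` with trivial section at `w` (they act trivially on the
subtree below `w`). -/
def K (w : List X) : Subgroup G := (S.secHom w).ker.map (S.St w).subtype

theorem mem_K {w : List X} {g : G} : g ∈ S.K w ↔ S.wact g w = w ∧ S.wsec g w = 1 := by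
  constructor
  · rintro ⟨⟨a, ha⟩, hk, rfl⟩
    exact ⟨ha, hk⟩
  · rintro ⟨h1, h2⟩
    exact ⟨⟨g, h1⟩, h2, rfl⟩

/-- The pointwise stabiliser of the level `n`. -/
def LSt (n : ℕ) : Subgroup G where
  carrier := {g | ∀ w : List X, w.length = n → S.wact g w = w}
  one_mem' := by simp
  mul_mem' := by
    intro a b ha hb w hw
    rw [S.wact_mul, hb w hw, ha w hw]
  inv_mem' := by
    intro a ha w hw
    conv_lhs => rw [← ha w hw]
    simp

theorem mem_LSt {n : ℕ} {g : G} : g ∈ S.LSt n ↔ ∀ w : List X, w.length = n → S.wact g w = w :=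
  Iff.rfl

instance LSt_normal (n : ℕ) : (S.LSt n).Normal where
  conj_mem := by
    intro a ha g w hw
    rw [S.wact_mul, S.wact_mul, ha _ (by simp [hw])]
    simp

theorem LSt_le_St {n : ℕ} {w : List X} (hw : w.length = n) : S.LSt n ≤ S.St w :=
  fun _ hg => hg w hw

theorem wsec_mul_of_LSt {n : ℕ} {g h : G} (hh : h ∈ S.LSt n) {w : List X} (hw : w.length = n) :
    S.wsec (g * h) w = S.wsec g w * S.wsec h w := by
  rw [S.wsec_mul, hh w hw]

/-- The sections at `w` of the elements of `M` fixing `w`. -/
def secSub (M : Subgroup G) (w : List X) : Subgroup G :=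
  (M.comap (S.St w).subtype).map (S.secHom w)

theorem mem_secSub {M : Subgroup G} {w : List X} {h : G} :
    h ∈ S.secSub M w ↔ ∃ g ∈ M, S.wact g w = w ∧ S.wsec g w = h := by
  constructor
  · rintro ⟨⟨a, ha⟩, hk, rfl⟩
    exact ⟨a, hk, ha, rfl⟩
  · rintro ⟨g, h1, h2, h3⟩
    exact ⟨⟨g, h2⟩, h1, h3⟩

/-- `k = h @ v`: the element `k` acts as `h` below `v` and trivially outside of the subtree
at `v`. -/
def IsAt (k : G) (v : List X) (h : G) : Prop :=
  k ∈ S.LSt v.length ∧ S.wsec k v = h ∧ ∀ u : List X, u.length = v.length → u ≠ v → S.wsec k u = 1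

/-- The action is faithful. -/
def Faithful : Prop := ∀ g : G, (∀ w : List X, S.wact g w = w) → g = 1

/-- The action is self-replicating. -/
def SelfRep : Prop := ∀ (x : X) (g : G), ∃ h : G, S.act h x = x ∧ S.sec h x = g

/-- The action is transitive on every level. -/
def LevTrans : Prop := ∀ u v : List X, u.length = v.length → ∃ g : G, S.wact g u = v

theorem IsAt.one (v : List X) : S.IsAt 1 v 1 :=
  ⟨(S.LSt _).one_mem, by simp, fun _ _ _ => by simp⟩

variable {S} in
theorem IsAt.mul {k k' h h' : G} {v : List X} (H : S.IsAt k v h) (H' : S.IsAt k' v h') :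
    S.IsAt (k * k') v (h * h') := by
  refine ⟨(S.LSt _).mul_mem H.1 H'.1, ?_, fun u hu huv => ?_⟩
  · rw [S.wsec_mul_of_LSt H'.1 rfl, H.2.1, H'.2.1]
  · rw [S.wsec_mul_of_LSt H'.1 hu, H.2.2 u hu huv, H'.2.2 u hu huv, one_mul]

variable {S} in
theorem IsAt.inv {k h : G} {v : List X} (H : S.IsAt k v h) : S.IsAt k⁻¹ v h⁻¹ := by
  have hk : k⁻¹ ∈ S.LSt v.length := (S.LSt _).inv_mem H.1
  refine ⟨hk, ?_, fun u hu huv => ?_⟩
  · rw [S.wsec_inv, hk v rfl, H.2.1]
  · rw [S.wsec_inv, hk u hu, H.2.2 u hu huv, inv_one]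

/-- `N_n = {h : h @ v ∈ G}` for the words `v` of length `n`. -/
def N (n : ℕ) : Subgroup G where
  carrier := {h | ∀ v : List X, v.length = n → ∃ k : G, S.IsAt k v h}
  one_mem' := fun v _ => ⟨1, IsAt.one S v⟩
  mul_mem' := fun {a b} ha hb v hv => by
    obtain ⟨k, hk⟩ := ha v hv
    obtain ⟨k', hk'⟩ := hb v hv
    exact ⟨k * k', hk.mul hk'⟩
  inv_mem' := fun {a} ha v hv => by
    obtain ⟨k, hk⟩ := ha v hv
    exact ⟨k⁻¹, hk.inv⟩

theorem mem_N {n : ℕ} {h : G} :
    h ∈ S.N n ↔ ∀ v : List X, v.length = n → ∃ k : G, S.IsAt k v h := Iff.rfl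

/-- The setwise stabiliser of a set of words. -/
def StB (B : Set (List X)) : Subgroup G where
  carrier := {g | ∀ v, S.wact g v ∈ B ↔ v ∈ B}
  one_mem' := by intro v; simp
  mul_mem' := by
    intro a b ha hb v
    rw [S.wact_mul, ha, hb]
  inv_mem' := by
    intro a ha v
    rw [← ha (S.wact a⁻¹ v)]
    simp

theorem mem_StB {B : Set (List X)} {g : G} : g ∈ S.StB B ↔ ∀ v, S.wact g v ∈ B ↔ v ∈ B := Iff.rfl

/-- `B` is a block of words of length `n`. -/
def IsBlk (n : ℕ) (B : Set (List X)) : Prop :=
  B.Nonempty ∧ (∀ w ∈ B, w.length = n) ∧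
    ∀ g : G, ∀ u ∈ B, S.wact g u ∈ B → ∀ v ∈ B, S.wact g v ∈ B

/-- The number of orbits of `H` on the levels is bounded. -/
def Open (H : Subgroup G) : Prop :=
  ∃ b : ℕ, ∀ n : ℕ, ∃ T : Finset (List X), T.card ≤ b ∧
    ∀ w : List X, w.length = n → ∃ u ∈ T, ∃ h ∈ H, S.wact h u = w

/-- Rigid stabiliser of a word. -/
def Rist (v : List X) : Subgroup G where
  carrier := {g | ∀ u : List X, ¬ v <+: u → S.wact g u = u}
  one_mem' := by simp
  mul_mem' := by
    intro a b ha hb u hu
    rw [S.wact_mul, hb u hu, ha u hu]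
  inv_mem' := by
    intro a ha u hu
    conv_lhs => rw [← ha u hu]
    simp

/-- The abstract branch property. -/
def Branch : Prop :=
  S.LevTrans ∧ ∀ n : ℕ, (⨆ v : {v : List X // v.length = n}, S.Rist v.1).FiniteIndex

end SelfSim

/-- All words of length `n`, as a finset. -/
noncomputable def lev (X : Type) [Fintype X] (n : ℕ) : Finset (List X) :=
  (Finset.univ : Finset (List.Vector X n)).map ⟨List.Vector.toList, List.Vector.toList_injective⟩

@[simp] theorem mem_lev {X : Type} [Fintype X] {n : ℕ} {w : List X} :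
    w ∈ lev X n ↔ w.length = n := by
  constructor
  · intro h
    obtain ⟨v, -, rfl⟩ := Finset.mem_map.1 h
    exact v.2
  · intro h
    exact Finset.mem_map.2 ⟨⟨w, h⟩, Finset.mem_univ _, rfl⟩

/-- Lower central series of a subgroup: `gam J 0 = J`, `gam J (r+1) = [gam J r, J]`. -/
def gam {G : Type} [Group G] (J : Subgroup G) : ℕ → Subgroup G
  | 0 => J
  | r + 1 => ⁅gam J r, J⁆

/-- Derived series of a subgroup. -/
def der {G : Type} [Group G] (J : Subgroup G) : ℕ → Subgroup G
  | 0 => J
  | r + 1 => ⁅der J r, der J r⁆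

end PCF
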