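import Pool.Agent.Work.MP_80ff4e_al.Defs
import Pool.Agent.Work.MP_80ff4e_al.SelfSim

/-!
# MP_80ff4e_al: interface between the blocks

Every block proves one (or several) of the `Stmt_*` below.  The proofs are in `BLUEPRINT.md`.
Part 1: blocks that do not depend on anything else.
-/

set_option autoImplicit false

open Polynomial unitInterval

namespace PCF

/-! ## Block S: rational Schur rings over cyclic groups -/

/-- The cosets of `H` form a `G`-invariant partition. -/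
def IsBlkH {A : Type} [AddCommGroup A] (G : Subgroup (Equiv.Perm A)) (H : AddSubgroup A) : Prop :=
  ∀ g ∈ G, ∀ i j : A, i - j ∈ H → g i - g j ∈ H

/-- `v (i - j)` is a `G`-invariant kernel and `v` only depends on the order of the element. -/
def RatInv {A : Type} [AddCommGroup A] (G : Subgroup (Equiv.Perm A)) (v : A → ℚ) : Prop :=
  (∀ g ∈ G, ∀ i j : A, v (g i - g j) = v (i - j)) ∧
    ∀ a b : A, addOrderOf a = addOrderOf b → v a = v b

/-- S1 (Muzychuk). -/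
def Stmt_S1 : Prop :=
  ∀ (A : Type) [AddCommGroup A] [Finite A] [IsAddCyclic A] (G : Subgroup (Equiv.Perm A)),
    (∀ c : A, Equiv.addRight c ∈ G) → ∀ v : A → ℚ, RatInv G v →
      ∀ a b : A, (∀ H : AddSubgroup A, IsBlkH G H → (a ∈ H ↔ b ∈ H)) → v a = v b

open Classical in
/-- S2: if the translates of the indicator function of a cycle `C` of `g` do not span, then `C`
is, modulo a block system `s₁`, a union of blocks of a strictly coarser block system `s₂`. -/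
def Stmt_S2 : Prop :=
  ∀ (Ω : Type) [Fintype Ω] (G : Subgroup (Equiv.Perm Ω)) (τ : Equiv.Perm Ω), τ ∈ G →
    (∀ a b : Ω, ∃ k : ℕ, (τ ^ k) a = b) → ∀ g ∈ G, ∀ (c₀ : Ω) (r : Ω → ℚ), r ≠ 0 →
    (∀ h ∈ G, ∑ w ∈ Finset.univ.filter (fun w => g.SameCycle c₀ w), r (h w) = 0) →
    ∃ s₁ s₂ : Setoid Ω, (∀ h ∈ G, ∀ a b, s₁ a b → s₁ (h a) (h b)) ∧
      (∀ h ∈ G, ∀ a b, s₂ a b → s₂ (h a) (h b)) ∧ s₁ ≤ s₂ ∧ s₁ ≠ s₂ ∧
      ∀ a b, g.SameCycle c₀ a → s₂ a b → ∃ c, g.SameCycle c₀ c ∧ s₁ b c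

/-! ## Block T: permutation groups with a tree of cycles -/

/-- The number of cycles of `g` on `Y`. -/
noncomputable def ncyc (Γ Y : Type) [Group Γ] [MulAction Γ Y] (g : Γ) : ℕ :=
  Nat.card (MulAction.orbitRel.Quotient (Subgroup.zpowers g) Y)

/-- T1: generation of the stabiliser by one conjugate of a power for every cycle. -/
def Stmt_T1 : Prop :=
  ∀ (Γ Y ι : Type) [Group Γ] [MulAction Γ Y] [Finite Y] [Fintype ι]
    [MulAction.IsPretransitive Γ Y] (h : ι → Γ), Subgroup.closure (Set.range h) = ⊤ →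
    (∑ i, (Nat.card Y - ncyc Γ Y (h i))) + 1 = Nat.card Y → ∀ y₀ : Y,
    ∃ c : (i : ι) → MulAction.orbitRel.Quotient (Subgroup.zpowers (h i)) Y → Γ,
      (∀ i p, (Quotient.mk'' ((c i p)⁻¹ • y₀) :
        MulAction.orbitRel.Quotient (Subgroup.zpowers (h i)) Y) = p) ∧
      MulAction.stabilizer Γ y₀ = Subgroup.closure
        {g | ∃ i p, g = c i p * (h i) ^ (MulAction.period (h i) ((c i p)⁻¹ • y₀)) * (c i p)⁻¹}

/-- T2: the index inequality for transitive groups. -/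
def Stmt_T2 : Prop :=
  ∀ (Γ Y ι : Type) [Group Γ] [MulAction Γ Y] [Finite Y] [Fintype ι]
    [MulAction.IsPretransitive Γ Y] (h : ι → Γ), Subgroup.closure (Set.range h) = ⊤ →
    Nat.card Y ≤ (∑ i, (Nat.card Y - ncyc Γ Y (h i))) + 1

/-- T3: equality passes to quotients (block systems). -/
def Stmt_T3 : Prop :=
  ∀ (Γ Y Z ι : Type) [Group Γ] [MulAction Γ Y] [MulAction Γ Z] [Finite Y] [Finite Z] [Fintype ι]
    [MulAction.IsPretransitive Γ Y] (h : ι → Γ) (π : Y → Z), Function.Surjective π →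
    (∀ (g : Γ) (y : Y), π (g • y) = g • π y) → Subgroup.closure (Set.range h) = ⊤ →
    (∑ i, (Nat.card Y - ncyc Γ Y (h i))) + 1 = Nat.card Y →
    (∑ i, (Nat.card Z - ncyc Γ Z (h i))) + 1 = Nat.card Z

/-! ## Block D: two facts on abstract groups -/

/-- D1 (Dietzmann, Schur). -/
def Stmt_D1 : Prop :=
  ∀ (Γ ι : Type) [Group Γ] [Finite ι] (K : ι → Subgroup Γ) (M : Subgroup Γ),
    M.Normal → M.FiniteIndex →
    (∀ g ∈ ⨆ i, K i, ∀ i, ∃ j, (K i).map (MulAut.conj g).toMonoidHom = K j) →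
    (⨆ i, K i ⊓ M).relIndex (⨆ i, K i) ≠ 0

/-- D2: descending chains in finitely generated virtually nilpotent groups. -/
def Stmt_D2 : Prop :=
  ∀ (G : Type) [Group G], Group.FG G → ∀ (J N : Subgroup G), J.FiniteIndex → J.Normal →
    N.Normal → ∀ r : ℕ, gam J r ≤ N → ∀ H : ℕ → Subgroup G, Antitone H → (∀ k, N ≤ H k) →
    ∃ k₀, ∀ k ≥ k₀, (H (k + 1)).relIndex (H k) ≠ 0

/-- D3: if `φ` is a non-zero... a finitely generated group with an abelian subgroup of finite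
index (modulo `N`): an element killed by all homomorphisms to `ℚ` of that subgroup is torsion. -/
def Stmt_D3 : Prop :=
  ∀ (A : Type) [AddCommGroup A], AddGroup.FG A → ∀ a : A,
    (∀ φ : A →+ ℚ, φ a = 0) → ∃ n : ℕ, 0 < n ∧ n • a = 0

/-- D4: homomorphisms to `ℚ` extend from subgroups of abelian groups. -/
def Stmt_D4 : Prop :=
  ∀ (A : Type) [AddCommGroup A] (B : AddSubgroup A) (φ : B →+ ℚ),
    ∃ ψ : A →+ ℚ, ∀ b : B, ψ b = φ b

/-! ## Block V: virtual homomorphisms to `ℚ` in homogeneous form -/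

/-- `φ : G → ℚ` is homogeneous and additive on a normal subgroup of finite index. -/
def IsVHom {G : Type} [Group G] (φ : G → ℚ) : Prop :=
  (∀ (g : G) (n : ℕ), φ (g ^ n) = n * φ g) ∧
    ∃ J : Subgroup G, J.Normal ∧ J.FiniteIndex ∧ ∀ a ∈ J, ∀ b ∈ J, φ (a * b) = φ a + φ b

def Stmt_V : Prop :=
  ∀ (G : Type) [Group G],
    -- the virtual homomorphisms form a vector space
    (∀ φ ψ : G → ℚ, IsVHom φ → IsVHom ψ → IsVHom (fun g => φ g + ψ g)) ∧
    (∀ (c : ℚ) (φ : G → ℚ), IsVHom φ → IsVHom (fun g => c * φ g)) ∧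
    -- additivity on commuting elements
    (∀ φ : G → ℚ, IsVHom φ → ∀ a b : G, a * b = b * a → φ (a * b) = φ a + φ b) ∧
    -- conjugation
    (∀ φ : G → ℚ, IsVHom φ → ∀ g : G, IsVHom (fun h => φ (g⁻¹ * h * g))) ∧
    (∀ φ : G → ℚ, IsVHom φ → ∃ J : Subgroup G, J.Normal ∧ J.FiniteIndex ∧
      ∀ g ∈ J, ∀ h : G, φ (g⁻¹ * h * g) = φ h) ∧
    -- a virtual homomorphism is determined by its values on a subgroup of finite index
    (∀ φ ψ : G → ℚ, IsVHom φ → IsVHom ψ → ∀ J : Subgroup G, J.FiniteIndex →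
      (∀ g ∈ J, φ g = ψ g) → φ = ψ) ∧
    -- extension from a subgroup of finite index
    (∀ J : Subgroup G, J.FiniteIndex → ∀ φ : G → ℚ, (∀ a ∈ J, ∀ b ∈ J, φ (a * b) = φ a + φ b) →
      ∃ ψ : G → ℚ, IsVHom ψ ∧ ∀ a ∈ J, ψ a = φ a) ∧
    -- invariant virtual homomorphisms are homomorphisms
    (∀ φ : G → ℚ, IsVHom φ → (∀ g h : G, φ (g⁻¹ * h * g) = φ h) →
      ∀ a b : G, φ (a * b) = φ a + φ b) ∧
    -- vanishing on a normal subgroup
    (∀ φ : G → ℚ, IsVHom φ → ∀ N : Subgroup G, N.Normal → (∀ n ∈ N, φ n = 0) →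
      ∀ g : G, ∀ n ∈ N, φ (g * n) = φ g) ∧
    -- pull back
    (∀ (H : Type) [Group H] (q : H →* G) (φ : G → ℚ), IsVHom φ → IsVHom (fun h => φ (q h)))

/-! ## Block W: winding numbers -/

/-- `u` is a loop in `ℂ ∖ {0}` with winding number `k` around `0`. -/
def Wind (u : C(I, ℂ)) (k : ℤ) : Prop :=
  ∃ L : C(I, ℂ), (∀ s, u s = Complex.exp (L s)) ∧ L 1 - L 0 = 2 * Real.pi * Complex.I * k

def Stmt_W : Prop :=
  -- existence and uniqueness
  (∀ u : C(I, ℂ), (∀ s, u s ≠ 0) → u 0 = u 1 → ∃ k, Wind u k) ∧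
  (∀ u k l, Wind u k → Wind u l → k = l) ∧
  -- products, constants
  (∀ u v k l, Wind u k → Wind v l → Wind (u * v) (k + l)) ∧
  (∀ c : ℂ, c ≠ 0 → Wind (ContinuousMap.const I c) 0) ∧
  -- homotopy invariance (free homotopy of loops)
  (∀ H : C(I × I, ℂ), (∀ p, H p ≠ 0) → (∀ r, H (r, 0) = H (r, 1)) → ∀ k,
    Wind (H.comp ⟨fun s => (0, s), by fun_prop⟩) k →
      Wind (H.comp ⟨fun s => (1, s), by fun_prop⟩) k) ∧
  -- loops close to a constant
  (∀ (u : C(I, ℂ)) (c : ℂ), u 0 = u 1 → (∀ s, ‖u s - c‖ < ‖c‖) → Wind u 0) ∧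
  -- circles
  (∀ (r : ℝ) (k : ℤ), 0 < r → Wind ⟨fun s => r * Complex.exp (2 * Real.pi * Complex.I * k * s),
    by fun_prop⟩ k) ∧
  -- concatenation
  (∀ (a : ℂ) (u v : Path a a) (k l : ℤ), Wind u.toContinuousMap k → Wind v.toContinuousMap l →
    Wind (u.trans v).toContinuousMap (k + l)) ∧
  -- moving the centre
  (∀ (u : C(I, ℂ)) (a b : ℂ) (γ : Path a b) (k : ℤ), (∀ s r, u s ≠ γ r) →
    Wind (u - ContinuousMap.const I a) k → Wind (u - ContinuousMap.const I b) k)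

/-! ## Block L: local degrees of polynomials -/

/-- The `n`-th iterate of `f` as a polynomial. -/
noncomputable def itp (f : ℂ[X]) (n : ℕ) : ℂ[X] := (fun q => f.comp q)^[n] X

/-- Local degree of the polynomial `p` at `u`. -/
noncomputable def ldeg (p : ℂ[X]) (u : ℂ) : ℕ := (p - C (p.eval u)).rootMultiplicity u

/-- The fibre of `p` over `z`. -/
noncomputable def fibre (p : ℂ[X]) (z : ℂ) : Finset ℂ := (p - C z).roots.toFinset

def Stmt_L : Prop :=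
  (∀ f n z, (itp f n).eval z = it f n z) ∧
  (∀ f n, (itp f n).natDegree = f.natDegree ^ n) ∧
  (∀ f m n, itp f (m + n) = (itp f m).comp (itp f n)) ∧
  (∀ p : ℂ[X], 1 ≤ p.natDegree → ∀ z u, u ∈ fibre p z ↔ p.eval u = z) ∧
  (∀ p : ℂ[X], 1 ≤ p.natDegree → ∀ z, ∑ u ∈ fibre p z, ldeg p u = p.natDegree) ∧
  (∀ p : ℂ[X], 1 ≤ p.natDegree → ∀ u, 1 ≤ ldeg p u) ∧
  (∀ p : ℂ[X], 1 ≤ p.natDegree → ∀ u, 2 ≤ ldeg p u ↔ p.derivative.eval u = 0) ∧
  (∀ p q : ℂ[X], 1 ≤ p.natDegree → 1 ≤ q.natDegree → ∀ u,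
    ldeg (p.comp q) u = ldeg p (q.eval u) * ldeg q u) ∧
  (∀ p : ℂ[X], 1 ≤ p.natDegree → ∀ S : Finset ℂ, (∀ u, p.derivative.eval u = 0 → p.eval u ∈ S) →
    (∑ z ∈ S, (p.natDegree - (fibre p z).card)) + 1 = p.natDegree)

/-! ## Block PA: algebra of polynomial composition -/

/-- PA1: right factors of a given degree are unique up to affine maps. -/
def Stmt_PA1 : Prop :=
  ∀ A B A' B' : ℂ[X], A.comp B = A'.comp B' → B.natDegree = B'.natDegree → 1 ≤ B.natDegree →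
    1 ≤ A.natDegree → ∃ α β : ℂ, α ≠ 0 ∧ B' = C α * B + C β

/-- PA2: a polynomial that is constant on infinitely many generic fibres of `E` is a polynomial
in `E`. -/
def Stmt_PA2 : Prop :=
  ∀ E F : ℂ[X], 1 ≤ E.natDegree →
    {y : ℂ | (fibre E y).card = E.natDegree ∧ ∀ u v, E.eval u = y → E.eval v = y →
      F.eval u = F.eval v}.Infinite → ∃ B : ℂ[X], F = B.comp E

/-- PA3: characterisation of the Chebyshev polynomials by their ramification. -/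
def Stmt_PA3 : Prop :=
  ∀ (f : ℂ[X]) (z₁ z₂ : ℂ), 2 ≤ f.natDegree → z₁ ≠ z₂ →
    (∀ u, f.eval u = z₁ ∨ f.eval u = z₂ →
      (ldeg f u = 1 ∧ (u = z₁ ∨ u = z₂)) ∨ (ldeg f u = 2 ∧ u ≠ z₁ ∧ u ≠ z₂)) →
    ∃ (α β ε : ℂ), α ≠ 0 ∧ (ε = 1 ∨ ε = -1) ∧
      f.comp (C α * X + C β) =
        (C α * X + C β).comp (C ε * Polynomial.Chebyshev.T ℂ f.natDegree)

/-- PA4: a totally ramified point. -/
def Stmt_PA4 : Prop :=
  ∀ (f : ℂ[X]) (z₀ : ℂ), 1 ≤ f.natDegree → (∀ u, f.eval u = z₀ → u = z₀) →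
    ∃ c : ℂ, f = C c * (X - C z₀) ^ f.natDegree + C z₀

/-! ## Block AR: arithmetic of the weights -/

/-- AR: a finite forward invariant set `P` and local degrees satisfying the Riemann-Hurwitz
formula: either `f` is nonexceptional or of power type or of Chebyshev type. -/
def Stmt_AR : Prop :=
  ∀ (d : ℕ) (F : ℂ → ℂ) (P : Finset ℂ) (deg : ℕ → ℂ → ℕ) (fib : ℕ → ℂ → Finset ℂ), 2 ≤ d →
    (∀ n z u, u ∈ fib n z ↔ F^[n] u = z) → (∀ u, deg 0 u = 1) →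
    (∀ m n u, deg (m + n) u = deg m (F^[n] u) * deg n u) →
    (∀ n z, ∑ u ∈ fib n z, deg n u = d ^ n) → (∀ n u, 1 ≤ deg n u) →
    (∀ z ∈ P, F z ∈ P) → (∀ u, 2 ≤ deg 1 u → F u ∈ P) →
    ((∑ z ∈ P, (d - (fib 1 z).card)) + 1 = d) →
    ((∀ z ∈ P, ∃ n, ∃ u ∈ fib n z, u ∉ P) ∧
      ∃ z₀, ∀ z ∈ P, z ≠ z₀ → ∀ q : ℕ, q.Prime → ∃ n, ∃ u ∈ fib n z, u ∉ P ∧ ¬ q ∣ deg n u) ∨
    (∃ z₀ ∈ P, ∀ u, F u = z₀ → u = z₀) ∨
    (∃ z₁ z₂, z₁ ≠ z₂ ∧ ∀ u, F u = z₁ ∨ F u = z₂ →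
      (deg 1 u = 1 ∧ (u = z₁ ∨ u = z₂)) ∨ (deg 1 u = 2 ∧ u ≠ z₁ ∧ u ≠ z₂))

end PCF
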