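import Pool.Agent.Work.MP_80ff4e_al.Interface

/-!
# MP_80ff4e_al: interface, part 2 (abstract group theory)
-/

set_option autoImplicit false

open Polynomial unitInterval

namespace PCF

/-- The hypotheses of the abstract criterion. -/
structure Core {G X : Type} [Group G] [Fintype X] (S : SelfSim G X) : Prop where
  fg : Group.FG G
  two_le : 2 ≤ Fintype.card X
  faithful : S.Faithful
  selfrep : S.SelfRep
  /-- an element acting on every level as one cycle -/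
  odo : ∃ τ : G, ∀ u v : List X, u.length = v.length → ∃ k : ℕ, S.wact (τ ^ k) u = v
  /-- the subgroup generated by the `K_w` of some level has finite index -/
  rfin : ∃ n₀ : ℕ, (⨆ w : {w : List X // w.length = n₀}, S.K w.1).FiniteIndex
  /-- large blocks: the second derived subgroup of the stabiliser is generated by `K_w`'s -/
  blk : ∃ β : ℕ, ∀ (n : ℕ) (B : Set (List X)), S.IsBlk n B → β ≤ B.ncard →
    der (S.StB B) 2 ≤ ⨆ w : B, S.K w.1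
  /-- the sections of a subgroup of finite index are everything at deep levels -/
  q1 : ∀ M : Subgroup G, M.Normal → M.FiniteIndex →
    ∃ n₀ : ℕ, ∀ w : List X, n₀ ≤ w.length → S.secSub M w = ⊤
  /-- independence of the coordinates in the abelianisation -/
  tf : ∀ (n : ℕ) (ζ : List X → G → ℚ), (∀ w a b, ζ w (a * b) = ζ w a + ζ w b) →
    (∀ g ∈ S.LSt n, ∑ w ∈ lev X n, ζ w (S.wsec g w) = 0) →
    ∀ w, w.length = n → ∀ g, ζ w g = 0

/-- The abstract criterion. -/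
def Stmt_CORE : Prop :=
  ∀ (G X : Type) [Group G] [Fintype X] (S : SelfSim G X), Core S → S.Branch

/-- `φ` restricts to a virtual homomorphism of `H`. -/
def VOn {G : Type} [Group G] (H : Subgroup G) (φ : G → ℚ) : Prop := IsVHom (fun h : H => φ h)

/-- C0: basic facts. -/
def Stmt_C0 : Prop :=
  ∀ (G X : Type) [Group G] [Fintype X] (S : SelfSim G X), 2 ≤ Fintype.card X → S.Faithful →
    S.SelfRep → S.LevTrans →
    -- self-replication on words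
    (∀ (w : List X) (g : G), ∃ h, S.wact h w = w ∧ S.wsec h w = g) ∧
    (∀ g n, g ∈ S.LSt n → (∀ w : List X, w.length = n → S.wsec g w = 1) → g = 1) ∧
    (∀ w u : List X, S.K w ≤ S.K (w ++ u)) ∧
    (∀ (w : List X) (g : G), (S.K w).map (MulAut.conj g).toMonoidHom = S.K (S.wact g w)) ∧
    (∀ n, (S.LSt n).FiniteIndex) ∧ (∀ w, (S.St w).FiniteIndex) ∧
    -- sections of subgroups
    (∀ (M : Subgroup G), M.Normal → ∀ w, (S.secSub M w).Normal) ∧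
    (∀ (M : Subgroup G), M.Normal → ∀ u v : List X, u.length = v.length →
      S.secSub M u = S.secSub M v) ∧
    (∀ (M : Subgroup G) (w u), S.secSub M (w ++ u) = S.secSub (S.secSub M w) u) ∧
    (∀ (M : Subgroup G) (w), M.FiniteIndex → (S.secSub M w).FiniteIndex) ∧
    -- `h @ v`
    (∀ n, (S.N n).Normal) ∧ (∀ n, S.N (n + 1) ≤ S.N n) ∧
    (∀ k k' v h, S.IsAt k v h → S.IsAt k' v h → k = k') ∧
    (∀ k k' v v' h h', v.length = v'.length → v ≠ v' → S.IsAt k v h → S.IsAt k' v' h' →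
      k * k' = k' * k) ∧
    (∀ g k v h, S.IsAt k v h → S.IsAt (g * k * g⁻¹) (S.wact g v) (S.wsec g v * h * (S.wsec g v)⁻¹)) ∧
    (∀ k v u h h', S.IsAt k v h' → S.IsAt h' u h → S.IsAt k (v ++ u) h) ∧
    (∀ k v u h, S.IsAt k (v ++ u) h → ∃ h', S.IsAt k v h' ∧ S.IsAt h' u h) ∧
    (∀ m n h, h ∈ S.N (m + n) ↔ h ∈ S.N m ∧
      ∀ (v : List X) (k : G), v.length = m → S.IsAt k v h → k ∈ S.N n) ∧
    (∀ n h, h ∈ S.N n ↔ ∃ (v : List X) (k : G), v.length = n ∧ S.IsAt k v h) ∧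
    -- rigid stabilisers
    (∀ k v, k ∈ S.Rist v ↔ ∃ h, S.IsAt k v h) ∧
    ((∀ n, (S.N n).FiniteIndex) → S.Branch)

/-- C1: orbits of nontrivial normal subgroups are unbounded. -/
def Stmt_C1 : Prop :=
  ∀ (G X : Type) [Group G] [Fintype X] (S : SelfSim G X), Core S → ∀ N : Subgroup G, N.Normal →
    N ≠ ⊥ → ∀ b : ℕ, ∃ n₀, ∀ n ≥ n₀, ∀ w : List X, w.length = n →
      b ≤ {v : List X | ∃ h ∈ N, S.wact h w = v}.ncard

/-- C2. -/
def Stmt_C2 : Prop :=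
  ∀ (G X : Type) [Group G] [Fintype X] (S : SelfSim G X), Core S → ∀ H : Subgroup G, H.Normal →
    S.Open H → S.Open ⁅H, H⁆

/-- C3: nontrivial normal subgroups. -/
def Stmt_C3 : Prop :=
  ∀ (G X : Type) [Group G] [Fintype X] (S : SelfSim G X), Core S →
    (∀ N : Subgroup G, N.Normal → N ≠ ⊥ →
      (∃ J : Subgroup G, J.Normal ∧ J.FiniteIndex ∧ ∃ r, gam J r ≤ N) ∧
      ∃ δ : ℕ, ∀ w : List X, δ ≤ w.length → S.secSub N w = ⊤) ∧
    (∀ J : Subgroup G, J.FiniteIndex → ∀ r, der J r ≠ ⊥)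

/-- C4: finite subgroups normalised by a subgroup of finite index are trivial. -/
def Stmt_C4 : Prop :=
  ∀ (G X : Type) [Group G] [Fintype X] (S : SelfSim G X), Core S → ∀ (F J : Subgroup G),
    Finite F → J.FiniteIndex → (∀ g ∈ J, ∀ f ∈ F, g * f * g⁻¹ ∈ F) → F = ⊥

/-- C5: the group is weakly branch. -/
def Stmt_C5 : Prop :=
  ∀ (G X : Type) [Group G] [Fintype X] (S : SelfSim G X), Core S → ∀ n, S.N n ≠ ⊥

/-- C7. -/
def Stmt_C7 : Prop :=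
  ∀ (G X : Type) [Group G] [Fintype X] (S : SelfSim G X), Core S → ∃ m₁ : ℕ, ∀ m ≥ m₁,
    (∀ φ : G → ℚ, VOn (S.N m) φ → (∀ h ∈ S.N (m + 1), φ h = 0) →
      ∀ (g : G), ∀ h ∈ S.N m, φ (g * h * g⁻¹) = φ h) ∧
    (∃ A : Subgroup G, A.Normal ∧ A ≤ S.N m ∧ A.relIndex (S.N m) ≠ 0 ∧
      ⁅A, A⁆ ≤ S.N (m + 1)) ∧
    (∀ φ : G → ℚ, VOn (S.N (m + 1)) φ → (∀ h ∈ S.N (m + 2), φ h = 0) →
      ∃ ψ : G → ℚ, VOn (S.N m) ψ ∧ (∀ h ∈ S.N (m + 1), ψ h = 0) ∧
        ∀ (x : X) (h k : G), h ∈ S.N (m + 1) → S.IsAt k [x] h → ψ k = φ h)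

/-- C8a. -/
def Stmt_C8a : Prop :=
  ∀ (G X : Type) [Group G] [Fintype X] (S : SelfSim G X), Core S → ∃ m₀ : ℕ, ∀ m : ℕ,
    ∀ φ : G → ℚ, IsVHom φ → (∀ h ∈ S.N m, φ h = 0) → ∀ h ∈ S.N m₀, φ h = 0

/-- C8b. -/
def Stmt_C8b : Prop :=
  ∀ (G X : Type) [Group G] [Fintype X] (S : SelfSim G X), Core S → ∃ c : ℕ, ∀ m : ℕ,
    ∃ J : Subgroup G, J.Normal ∧ J.FiniteIndex ∧ gam J c ≤ S.N m

/-- Relations between the coordinates of level `k`. -/
def Rel {G X : Type} [Group G] [Fintype X] (S : SelfSim G X) (k : ℕ) (ζ : List X → G → ℚ) :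
    Prop :=
  (∀ w, IsVHom (ζ w)) ∧ ∀ g ∈ S.LSt k, ∑ w ∈ lev X k, ζ w (S.wsec g w) = 0

/-- C9: relations between coordinates are local. -/
def Stmt_C9 : Prop :=
  ∀ (G X : Type) [Group G] [Fintype X] (S : SelfSim G X), Core S → ∃ δ : ℕ, ∀ (n : ℕ)
    (ζ : List X → G → ℚ), Rel S (n + δ) ζ → ∀ w : List X, w.length = n →
      Rel S δ (fun u => ζ (w ++ u))

/-- C10: all quotients `G / N_m` are virtually abelian. -/
def Stmt_C10 : Prop :=
  ∀ (G X : Type) [Group G] [Fintype X] (S : SelfSim G X), Core S → ∀ m : ℕ,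
    ∃ J : Subgroup G, J.Normal ∧ J.FiniteIndex ∧ gam J 1 ≤ S.N m

/-- C11: conclusion. -/
def Stmt_C11 : Prop :=
  ∀ (G X : Type) [Group G] [Fintype X] (S : SelfSim G X), Core S → ∀ m, (S.N m).FiniteIndex

/-! ## Post-critically finite systems -/

/-- Labelling of the words of length `n` by the points of `F⁻ⁿ(z)` for an inertia element `g`
at `z`. -/
def Labels {G X : Type} [Group G] (S : SelfSim G X) (F : ℂ → ℂ) (deg : ℕ → ℂ → ℕ)
    (In : ℂ → Set G) (n : ℕ) (z : ℂ) (g : G) (π : List X → ℂ) : Prop :=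
  (∀ w : List X, w.length = n → F^[n] (π w) = z) ∧
  (∀ u, F^[n] u = z → ∃ w : List X, w.length = n ∧ π w = u) ∧
  (∀ w w' : List X, w.length = n → w'.length = n →
    (π w = π w' ↔ ∃ k : ℕ, S.wact (g ^ k) w = w')) ∧
  (∀ (w : List X) (j : ℕ), w.length = n → (S.wact (g ^ j) w = w ↔ deg n (π w) ∣ j)) ∧
  (∀ w : List X, w.length = n → S.wsec (g ^ deg n (π w)) w ∈ In (π w))

/-- A post-critically finite system. -/
structure PCFSys (G X : Type) [Group G] [Fintype X] where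
  S : SelfSim G X
  F : ℂ → ℂ
  P : Finset ℂ
  /-- local degree of `Fⁿ` at a point -/
  deg : ℕ → ℂ → ℕ
  fib : ℕ → ℂ → Finset ℂ
  /-- inertia classes -/
  In : ℂ → Set G
  gen : ℂ → G
  τ : G
  faithful : S.Faithful
  selfrep : S.SelfRep
  two_le : 2 ≤ Fintype.card X
  mem_fib : ∀ n z u, u ∈ fib n z ↔ F^[n] u = z
  deg_zero : ∀ u, deg 0 u = 1
  deg_add : ∀ m n u, deg (m + n) u = deg m (F^[n] u) * deg n u
  deg_pos : ∀ n u, 1 ≤ deg n u
  deg_sum : ∀ n z, ∑ u ∈ fib n z, deg n u = Fintype.card X ^ n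
  fwd : ∀ z ∈ P, F z ∈ P
  crit : ∀ u, 2 ≤ deg 1 u → F u ∈ P
  RH : ∀ n, (∑ z ∈ P, (Fintype.card X ^ n - (fib n z).card)) + 1 = Fintype.card X ^ n
  In_conj : ∀ z g, ∀ h ∈ In z, g * h * g⁻¹ ∈ In z
  In_single : ∀ z, ∀ g ∈ In z, ∀ h ∈ In z, ∃ k, h = k * g * k⁻¹
  In_triv : ∀ z, z ∉ P → ∀ h ∈ In z, h = 1
  labels : ∀ n z, ∀ g ∈ In z, ∃ π, Labels S F deg In n z g π
  gen_mem : ∀ z ∈ P, gen z ∈ In z
  gen_top : Subgroup.closure (gen '' P) = ⊤
  odo : ∀ u v : List X, u.length = v.length → ∃ k : ℕ, S.wact (τ ^ k) u = v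

namespace PCFSys

variable {G X : Type} [Group G] [Fintype X]

/-- Nonexceptional. -/
def NE (T : PCFSys G X) : Prop :=
  (∀ z ∈ T.P, ∃ n, ∃ u ∈ T.fib n z, u ∉ T.P) ∧
    ∃ z₀, ∀ z ∈ T.P, z ≠ z₀ → ∀ q : ℕ, q.Prime → ∃ n, ∃ u ∈ T.fib n z, u ∉ T.P ∧ ¬ q ∣ T.deg n u

/-- The arithmetic condition that excludes proper stable subgroups. -/
def AQ (T : PCFSys G X) : Prop :=
  ∀ z ∈ T.P, T.F z = z → ∀ q : ℕ, q.Prime → Nat.Coprime (T.deg 1 z) q →
    ∃ u ∈ T.fib 1 z, u ≠ z ∧ ¬ q ∣ T.deg 1 u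

open Classical in
/-- The indicator functions of the cycles of the periodic points span. -/
def TFull (T : PCFSys G X) : Prop :=
  ∀ (n : ℕ) (y : ℂ), y ∈ T.P → (∃ p, 1 ≤ p ∧ T.F^[p] y = y) → ∀ r : List X → ℚ,
    (∀ g ∈ T.In (T.F^[n] y), ∀ π, Labels T.S T.F T.deg T.In n (T.F^[n] y) g π →
      ∑ w ∈ (lev X n).filter (fun w => π w = y), r w = 0) →
    ∀ w : List X, w.length = n → r w = 0

end PCFSys

/-- A2: finite index of the subgroup generated by the `K_w`. -/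
def Stmt_A2 : Prop :=
  ∀ (G X : Type) [Group G] [Fintype X] (T : PCFSys G X), T.NE →
    ∃ n₀ : ℕ, (⨆ w : {w : List X // w.length = n₀}, T.S.K w.1).FiniteIndex

/-- A3: large blocks. -/
def Stmt_A3 : Prop :=
  ∀ (G X : Type) [Group G] [Fintype X] (T : PCFSys G X), ∀ (n : ℕ) (B : Set (List X)),
    T.S.IsBlk n B → 4 * T.P.card + 1 ≤ B.ncard → der (T.S.StB B) 2 ≤ ⨆ w : B, T.S.K w.1

/-- A4: sections of subgroups of finite index. -/
def Stmt_A4 : Prop :=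
  ∀ (G X : Type) [Group G] [Fintype X] (T : PCFSys G X), T.NE → T.AQ →
    ∀ M : Subgroup G, M.Normal → M.FiniteIndex →
      ∃ n₀ : ℕ, ∀ w : List X, n₀ ≤ w.length → T.S.secSub M w = ⊤

/-- A5: independence in the abelianisation. -/
def Stmt_A5 : Prop :=
  ∀ (G X : Type) [Group G] [Fintype X] (T : PCFSys G X), T.TFull →
    ∀ (n : ℕ) (ζ : List X → G → ℚ), (∀ w a b, ζ w (a * b) = ζ w a + ζ w b) →
      (∀ g ∈ T.S.LSt n, ∑ w ∈ lev X n, ζ w (T.S.wsec g w) = 0) →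
      ∀ w, w.length = n → ∀ g, ζ w g = 0

/-- A6: a system of Chebyshev type is not branch. -/
def Stmt_A6 : Prop :=
  ∀ (G X : Type) [Group G] [Fintype X] (T : PCFSys G X) (z₁ z₂ : ℂ), z₁ ≠ z₂ →
    T.P = {z₁, z₂} → (∀ u, T.F u = z₁ ∨ T.F u = z₂ →
      (T.deg 1 u = 1 ∧ (u = z₁ ∨ u = z₂)) ∨ (T.deg 1 u = 2 ∧ u ≠ z₁ ∧ u ≠ z₂)) →
    ¬ T.S.Branch

end PCF
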