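import Pool.Agent.Work.MP_80ff4e_al.Interface2

/-!
# MP_80ff4e_al: interface, part 3 (topology, polynomial decompositions, final assembly)
-/

set_option autoImplicit false

open Polynomial unitInterval

namespace PCF

/-! ## Transport along paths -/

/-- `P` is a finite forward invariant set that contains the critical values. -/
structure Adm (f : ℂ[X]) (P : Set ℂ) : Prop where
  deg : 2 ≤ f.natDegree
  fin : P.Finite
  fwd : ∀ z ∈ P, f.eval z ∈ P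
  crit : ∀ c, f.derivative.eval c = 0 → f.eval c ∈ P

/-- The lift of `γ` by `fⁿ` that starts at `z` ends at `w`. -/
def Tr (f : ℂ[X]) (n : ℕ) {a b : ℂ} (γ : Path a b) (z w : ℂ) : Prop :=
  ∃ Γ : Path z w, ∀ s, it f n (Γ s) = γ s

/-- The path `γ` avoids `P`. -/
def Av (P : Set ℂ) {a b : ℂ} (γ : Path a b) : Prop := ∀ s, γ s ∉ P

/-- Powers of a loop. -/
noncomputable def pw {a : ℂ} (γ : Path a a) : ℕ → Path a a
  | 0 => Path.refl a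
  | j + 1 => (pw γ j).trans γ

/-- TR: path lifting. -/
def Stmt_TR : Prop :=
  ∀ (f : ℂ[X]) (P : Set ℂ), Adm f P →
    -- existence, uniqueness, endpoints
    (∀ (n : ℕ) (a b : ℂ) (γ : Path a b), Av P γ → ∀ z, it f n z = a → ∃ w, Tr f n γ z w) ∧
    (∀ (n : ℕ) (a b : ℂ) (γ : Path a b), Av P γ → ∀ z w w', Tr f n γ z w → Tr f n γ z w' →
      w = w') ∧
    (∀ (n : ℕ) (a b : ℂ) (γ : Path a b) (z w : ℂ), Tr f n γ z w → it f n z = a ∧ it f n w = b) ∧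
    -- refl, symm, trans
    (∀ (n : ℕ) (a z : ℂ), it f n z = a → Tr f n (Path.refl a) z z) ∧
    (∀ (n : ℕ) (a b : ℂ) (γ : Path a b) (z w : ℂ), Tr f n γ z w → Tr f n γ.symm w z) ∧
    (∀ (n : ℕ) (a b c : ℂ) (γ : Path a b) (δ : Path b c) (x y z : ℂ), Tr f n γ x y →
      Tr f n δ y z → Tr f n (γ.trans δ) x z) ∧
    -- homotopy invariance
    (∀ (n : ℕ) (a b : ℂ) (γ γ' : Path a b) (H : γ.Homotopy γ'), (∀ p, H p ∉ P) → ∀ z w,
      Tr f n γ z w → Tr f n γ' z w) ∧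
    (∀ (n : ℕ) (a b : ℂ) (γ γ' : Path a b) (C : Set ℂ), Convex ℝ C → Disjoint C P →
      (∀ s, γ s ∈ C) → (∀ s, γ' s ∈ C) → ∀ z w, Tr f n γ z w → Tr f n γ' z w) ∧
    -- iterated lifts: `Γ` is a lift of `γ` by `fⁿ`
    (∀ (m n : ℕ) (a b : ℂ) (γ : Path a b) (z w : ℂ) (Γ : Path z w), Av P γ →
      (∀ s, it f n (Γ s) = γ s) → Av P Γ ∧
        ∀ x y, it f m x = z → (Tr f m Γ x y ↔ Tr f (m + n) γ x y)) ∧
    (∀ (m n : ℕ) (a b : ℂ) (γ : Path a b) (x y : ℂ), Tr f (m + n) γ x y →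
      Tr f n γ (it f m x) (it f m y)) ∧
    -- connectivity, number of preimages
    (∀ a b : ℂ, a ∉ P → b ∉ P → ∃ γ : Path a b, Av P γ) ∧
    (∀ (n : ℕ) (a : ℂ), a ∉ P → (fibre (itp f n) a).card = f.natDegree ^ n ∧
      ∀ z, it f n z = a → z ∉ P) ∧
    -- perturbation
    (∀ P' : Set ℂ, P'.Finite → P ⊆ P' → ∀ a b : ℂ, a ∉ P' → b ∉ P' → ∀ γ : Path a b, Av P γ →
      ∃ γ' : Path a b, Av P' γ' ∧ ∀ n z w, Tr f n γ z w ↔ Tr f n γ' z w)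

/-- `δ` is a loop of winding number one around `z` in the punctured disc of radius `ρ`, which
contains no point of `P` except possibly `z`. -/
def Small (P : Set ℂ) (z : ℂ) (ρ : ℝ) {a : ℂ} (δ : Path a a) : Prop :=
  (∀ p ∈ P, ‖p - z‖ < ρ → p = z) ∧ (∀ s, δ s ≠ z ∧ ‖δ s - z‖ < ρ) ∧
    Wind (δ.toContinuousMap - ContinuousMap.const I z) 1

/-- LC: local structure of the lifts of a small loop around `z`. -/
def Stmt_LC : Prop :=
  ∀ (f : ℂ[X]) (P : Set ℂ), Adm f P → ∀ (n : ℕ) (z a : ℂ) (ρ : ℝ) (δ : Path a a),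
    Small P z ρ δ → ∃ π : ℂ → ℂ,
      (∀ x, it f n x = a → it f n (π x) = z) ∧
      (∀ u, it f n u = z → ∃ x, it f n x = a ∧ π x = u) ∧
      (∀ x x', it f n x = a → it f n x' = a → (π x = π x' ↔ ∃ j, Tr f n (pw δ j) x x')) ∧
      (∀ x j, it f n x = a → (Tr f n (pw δ j) x x ↔ ldeg (itp f n) (π x) ∣ j)) ∧
      -- the lift of the power of `δ` is (homotopic to) a conjugate of a small loop around `π x`
      (∀ x, it f n x = a → ∃ Γ : Path x x,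
        (∀ s, it f n (Γ s) = pw δ (ldeg (itp f n) (π x)) s) ∧
        ∃ (a' : ℂ) (η : Path x a') (ρ' : ℝ) (δ' : Path a' a'), Av P η ∧ Small P (π x) ρ' δ' ∧
          ∀ m y y', Tr f m Γ y y' ↔ Tr f m ((η.trans δ').trans η.symm) y y') ∧
      -- the points labelled `u` can be moved close to `u` (along one path)
      (∀ ε : ℝ, 0 < ε → ∃ (a' : ℂ) (ς : Path a a'), ‖a' - z‖ < ε ∧ a' ≠ z ∧ Av P ς ∧
        ∀ x, it f n x = a → ∃ y, Tr f n ς x y ∧ ‖y - π x‖ < ε)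

/-- SM: small loops exist, and any two small loops around the same point (with tails) are
conjugate; small loops around points outside of `P` act trivially. -/
def Stmt_SM : Prop :=
  ∀ (f : ℂ[X]) (P : Set ℂ), Adm f P →
    (∀ (z : ℂ) (ε : ℝ), 0 < ε → ∃ (a : ℂ) (ρ : ℝ) (δ : Path a a), Small P z ρ δ ∧ Av P δ ∧
      ρ ≤ ε) ∧
    (∀ (z a b : ℂ) (ρ ρ' : ℝ) (δ : Path a a) (δ' : Path b b), Small P z ρ δ → Small P z ρ' δ' →
      ∃ ς : Path a b, Av P ς ∧ (∀ s, ς s ≠ z) ∧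
        ∀ n x y, Tr f n δ x y ↔ Tr f n ((ς.trans δ').trans ς.symm) x y) ∧
    (∀ (z a : ℂ) (ρ : ℝ) (δ : Path a a), z ∉ P → Small P z ρ δ → ∀ n x y, Tr f n δ x y → x = y)

/-- Concatenation of a list of loops. -/
noncomputable def catL {t : ℂ} : List (Path t t) → Path t t
  | [] => Path.refl t
  | γ :: l => γ.trans (catL l)

/-- GEN: every loop acts as a product of the chosen small loops with tails and their inverses,
one for every point of `P`. -/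
def Stmt_GEN : Prop :=
  ∀ (f : ℂ[X]) (P : Set ℂ), Adm f P → ∀ t, t ∉ P →
    ∃ g : ℂ → Path t t,
      (∀ z ∈ P, ∃ (a : ℂ) (η : Path t a) (ρ : ℝ) (δ : Path a a), Av P η ∧ Small P z ρ δ ∧
        g z = (η.trans δ).trans η.symm) ∧
      ∀ γ : Path t t, Av P γ → ∃ l : List (Path t t),
        (∀ θ ∈ l, ∃ z ∈ P, θ = g z ∨ θ = (g z).symm) ∧
        ∀ n x y, Tr f n γ x y ↔ Tr f n (catL l) x y

/-- BIG: there is a loop that acts on every level as one cycle. -/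
def Stmt_BIG : Prop :=
  ∀ (f : ℂ[X]) (P : Set ℂ), Adm f P → ∀ t, t ∉ P →
    ∃ θ : Path t t, Av P θ ∧ ∀ n x y, it f n x = t → it f n y = t → ∃ j, Tr f n (pw θ j) x y

/-- TOP: the iterated monodromy group is a post-critically finite system. -/
def Stmt_TOP : Prop :=
  ∀ (f : ℂ[X]) (t : ℂ), 2 ≤ f.natDegree → (postCrit f).Finite → t ∉ postCrit f →
    ∃ (X : Type) (_ : Fintype X) (T : PCFSys (IMG f t) X), Fintype.card X = f.natDegree ∧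
      T.F = (fun z => f.eval z) ∧ (T.P : Set ℂ) = postCrit f ∧
      T.deg = (fun n u => ldeg (itp f n) u) ∧ T.fib = (fun n z => fibre (itp f n) z) ∧
      ∃ Λ : List X ≃ Vertex f t,
        (∀ w, (Λ w).1.1 = w.length) ∧ (∀ v w, v <+: w ↔ InSubtree (Λ v) (Λ w)) ∧
        (∀ (g : IMG f t) (w), Λ (T.S.wact g w) = g.1 (Λ w)) ∧
        -- geometric inertia elements
        (∀ n z, z ∈ postCrit f → ∃ g ∈ T.In z, ∃ π,
          Labels T.S T.F T.deg T.In n z g π ∧ ∀ ε : ℝ, 0 < ε →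
            ∃ (t' : ℂ) (ρ : Path t t'), Av (postCrit f) ρ ∧ ‖t' - z‖ < ε ∧
              ∀ w, w.length = n → ∃ y, Tr f n ρ (Λ w).1.2 y ∧ ‖y - π w‖ < ε) ∧
        -- elements of the group and loops
        (∀ g : IMG f t, ∃ γ : Path t t, Av (postCrit f) γ ∧
          ∀ w, Tr f w.length γ (Λ w).1.2 (g.1 (Λ w)).1.2) ∧
        (∀ γ : Path t t, Av (postCrit f) γ → ∃ g : IMG f t,
          ∀ w, Tr f w.length γ (Λ w).1.2 (g.1 (Λ w)).1.2)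

/-- BR: the two notions of branch group agree. -/
def Stmt_BR : Prop :=
  ∀ (f : ℂ[X]) (t : ℂ) (X : Type) [Fintype X] (S : SelfSim (IMG f t) X) (Λ : List X ≃ Vertex f t),
    (∀ w, (Λ w).1.1 = w.length) → (∀ v w, v <+: w ↔ InSubtree (Λ v) (Λ w)) →
    (∀ (g : IMG f t) (w), Λ (S.wact g w) = g.1 (Λ w)) → (S.Branch ↔ IsBranch (IMG f t))

/-! ## Decompositions -/

/-- P1: an invariant equivalence relation on the fibre comes from a right factor. -/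
def Stmt_P1 : Prop :=
  ∀ (f : ℂ[X]) (P : Set ℂ), Adm f P → ∀ (t : ℂ) (n : ℕ), t ∉ P → ∀ s : Setoid ℂ,
    (∀ x y, s x y → x ≠ y → it f n x = t ∧ it f n y = t) →
    (∀ γ : Path t t, Av P γ → ∀ x x' y y', s x y → Tr f n γ x x' → Tr f n γ y y' → s x' y') →
    ∃ E A : ℂ[X], itp f n = A.comp E ∧
      ∀ x y, it f n x = t → it f n y = t → (E.eval x = E.eval y ↔ s x y)

/-- P2: two nested invariant equivalence relations and a geometric cycle give a power. -/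
def Stmt_P2 : Prop :=
  ∀ (f : ℂ[X]) (P : Set ℂ), Adm f P → ∀ (t : ℂ) (n : ℕ), t ∉ P → ∀ s₁ s₂ : Setoid ℂ,
    (∀ x y, s₁ x y → x ≠ y → it f n x = t ∧ it f n y = t) →
    (∀ x y, s₂ x y → x ≠ y → it f n x = t ∧ it f n y = t) →
    (∀ γ : Path t t, Av P γ → ∀ x x' y y', s₁ x y → Tr f n γ x x' → Tr f n γ y y' → s₁ x' y') →
    (∀ γ : Path t t, Av P γ → ∀ x x' y y', s₂ x y → Tr f n γ x x' → Tr f n γ y y' → s₂ x' y') →
    s₁ ≤ s₂ → s₁ ≠ s₂ → ∀ (Cy : Set ℂ) (u : ℂ), Cy.Nonempty → (∀ x ∈ Cy, it f n x = t) →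
    (∀ ε : ℝ, 0 < ε → ∃ (t' : ℂ) (ρ : Path t t'), Av P ρ ∧ ‖t' - it f n u‖ < ε ∧
      ∀ x ∈ Cy, ∃ y, Tr f n ρ x y ∧ ‖y - u‖ < ε) →
    (∀ a ∈ Cy, ∀ b, s₂ a b → ∃ c ∈ Cy, s₁ b c) →
    ∃ (k : ℕ) (a h : ℂ[X]), 2 ≤ k ∧ (∀ z, it f n z = a.eval (h.eval z ^ k)) ∧ h.eval u = 0

/-! ## Passing to `f̃` with `π ∘ f̃ = f ∘ π`, `π y = z₀ + y ^ q` -/

/-- FT1: existence of `f̃`. -/
def Stmt_FT1 : Prop :=
  ∀ (f : ℂ[X]) (z₀ : ℂ), 2 ≤ f.natDegree → f.eval z₀ = z₀ → ∀ q : ℕ, 1 ≤ q →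
    Nat.Coprime (ldeg f z₀) q → (∀ u, f.eval u = z₀ → u ≠ z₀ → q ∣ ldeg f u) →
    ∃ g : ℂ[X], g.natDegree = f.natDegree ∧ g.eval 0 = 0 ∧
      (∀ y, z₀ + (g.eval y) ^ q = f.eval (z₀ + y ^ q))

/-- The polynomials `f` and `g` are related by `π y = z₀ + y ^ q`. -/
structure Cover (f g : ℂ[X]) (z₀ : ℂ) (q : ℕ) : Prop where
  two_le : 2 ≤ f.natDegree
  qpos : 1 ≤ q
  fix : f.eval z₀ = z₀
  gfix : g.eval 0 = 0
  cop : Nat.Coprime (ldeg f z₀) q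
  nat : g.natDegree = f.natDegree
  semi : ∀ y, z₀ + (g.eval y) ^ q = f.eval (z₀ + y ^ q)

/-- FT2: post-critical sets and local degrees. -/
def Stmt_FT2 : Prop :=
  ∀ (f g : ℂ[X]) (z₀ : ℂ) (q : ℕ), Cover f g z₀ q →
    (∀ y ∈ postCrit g, y = 0 ∨ z₀ + y ^ q ∈ postCrit f) ∧
    (∀ y, y ≠ 0 → z₀ + y ^ q ∈ postCrit f → y ∈ postCrit g) ∧
    ((postCrit f).Finite → (postCrit g).Finite) ∧
    (∀ n y, y ≠ 0 → it g n y ≠ 0 → ldeg (itp g n) y = ldeg (itp f n) (z₀ + y ^ q)) ∧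
    (∀ n y, it g n y ≠ 0 → y ≠ 0) ∧
    ldeg g 0 = ldeg f z₀ ∧
    (∀ u, g.eval u = 0 → u ≠ 0 → q * ldeg g u = ldeg f (z₀ + u ^ q)) ∧
    (∀ n x y, it f n x = z₀ + y ^ q → ∃ u, z₀ + u ^ q = x ∧ it g n u = y)

/-- FT3: transfer of the branch property. -/
def Stmt_FT3 : Prop :=
  ∀ (f g : ℂ[X]) (z₀ : ℂ) (q : ℕ), Cover f g z₀ q → (postCrit f).Finite → ∀ t s : ℂ,
    z₀ + s ^ q = t → t ∉ postCrit f → s ∉ postCrit g → s ≠ 0 →
    IsBranch (IMG g s) → IsBranch (IMG f t)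

/-- FT4: transfer of decompositions. -/
def Stmt_FT4 : Prop :=
  ∀ (f g : ℂ[X]) (z₀ : ℂ) (q : ℕ), Cover f g z₀ q → ∀ (m k : ℕ) (a h : ℂ[X]) (y : ℂ), 1 ≤ m →
    2 ≤ k → (∀ z, it g m z = a.eval (h.eval z ^ k)) → h.eval y = 0 →
    ∃ a' h' : ℂ[X], (∀ z, it f m z = a'.eval (h'.eval z ^ k)) ∧ h'.eval (z₀ + y ^ q) = 0

/-! ## Necessity -/

/-- The polynomial `f` has an iterate of the form `a ∘ h ^ k`, `k ≥ 2`, such that `h` has a
periodic zero. -/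
def Bad (f : ℂ[X]) : Prop :=
  ∃ (m k : ℕ) (a h : ℂ[X]) (y : ℂ), 1 ≤ m ∧ 2 ≤ k ∧ (∀ z, it f m z = a.eval (h.eval z ^ k)) ∧
    h.eval y = 0 ∧ ∃ p, 1 ≤ p ∧ it f p y = y

/-- `f` is affinely conjugate to `T_d` or `-T_d`. -/
def Cheb (f : ℂ[X]) : Prop :=
  ∃ α β ε : ℂ, α ≠ 0 ∧ (ε = 1 ∨ ε = -1) ∧
    f.comp (C α * X + C β) = (C α * X + C β).comp (C ε * Polynomial.Chebyshev.T ℂ f.natDegree)

/-- NEC: the first obstruction. -/
def Stmt_NEC : Prop :=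
  ∀ (f : ℂ[X]) (t : ℂ), 2 ≤ f.natDegree → (postCrit f).Finite → t ∉ postCrit f → Bad f →
    ¬ IsBranch (IMG f t)

/-- CH: the second obstruction. -/
def Stmt_CH : Prop :=
  ∀ (f : ℂ[X]) (t : ℂ), 2 ≤ f.natDegree → (postCrit f).Finite → t ∉ postCrit f → Cheb f →
    ¬ IsBranch (IMG f t)

/-- SUF: sufficiency. -/
def Stmt_SUF : Prop :=
  ∀ (f : ℂ[X]) (t : ℂ), 2 ≤ f.natDegree → (postCrit f).Finite → t ∉ postCrit f → ¬ Bad f →
    ¬ Cheb f → IsBranch (IMG f t)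

/-- The final theorem. -/
def Stmt_MAIN : Prop :=
  ∀ (f : ℂ[X]) (t : ℂ), 2 ≤ f.natDegree → (postCrit f).Finite → t ∉ postCrit f →
    (IsBranch (IMG f t) ↔ ¬ Cheb f ∧ ¬ Bad f)

end PCF
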