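import Pool.Agent.Work.MP_80ff4e_al.Interface3

/-!
# MP_80ff4e_al: interface, part 4 (three iterates are enough)

`Bad f` and `¬ Cheb f` imply that already `f ∘ f ∘ f = a ∘ h ^ k` with `k ≥ 2` such that `h` has
a periodic zero.  Everything here is algebra of polynomials, except `RL` and `GI`.
-/

set_option autoImplicit false

open Polynomial

namespace PCF

/-- The polynomial `f` is bad at level three. -/
def Bad3 (f : ℂ[X]) : Prop :=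
  ∃ (k : ℕ) (a h : ℂ[X]) (y : ℂ), 2 ≤ k ∧ (∀ z, it f 3 z = a.eval (h.eval z ^ k)) ∧
    h.eval y = 0 ∧ ∃ p, 1 ≤ p ∧ it f p y = y

/-- Pairs of different points that `b` and `D` do not separate. -/
def NonInj (b D : ℂ[X]) : Set ℂ :=
  {z : ℂ | ∃ z', z' ≠ z ∧ b.eval z = b.eval z' ∧ D.eval z = D.eval z'}

/-- RL: the lattice of right factors of the iterates of `f`. -/
def Stmt_RL : Prop :=
  ∀ (f : ℂ[X]) (P : Set ℂ), Adm f P → ∀ (N : ℕ) (A₁ E₁ A₂ E₂ : ℂ[X]),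
    itp f N = A₁.comp E₁ → itp f N = A₂.comp E₂ →
    (∃ G U₁ U₂ : ℂ[X], E₁ = U₁.comp G ∧ E₂ = U₂.comp G ∧
      G.natDegree = Nat.gcd E₁.natDegree E₂.natDegree) ∧
    (∃ L V₁ V₂ W : ℂ[X], L = V₁.comp E₁ ∧ L = V₂.comp E₂ ∧ itp f N = W.comp L ∧
      L.natDegree = Nat.lcm E₁.natDegree E₂.natDegree) ∧
    (E₁.natDegree ∣ E₂.natDegree → ∃ V : ℂ[X], E₂ = V.comp E₁)

/-- GI: two right factors with coprime relative degrees separate points. -/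
def Stmt_GI : Prop :=
  ∀ (f : ℂ[X]) (P : Set ℂ), Adm f P → ∀ (N : ℕ) (a b c D G : ℂ[X]),
    itp f N = a.comp (b.comp G) → itp f N = c.comp (D.comp G) →
    Nat.Coprime b.natDegree D.natDegree → (NonInj b D).Finite

open Classical in
/-- EX: ramification in a square `A ∘ B = C ∘ D` that is generically a fibre product. -/
def Stmt_EX : Prop :=
  ∀ A B C D : ℂ[X], A.comp B = C.comp D → 1 ≤ A.natDegree → 1 ≤ B.natDegree →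
    A.natDegree = D.natDegree → B.natDegree = C.natDegree → (NonInj B D).Finite →
    (∀ z, ldeg (A.comp B) z = Nat.lcm (ldeg A (B.eval z)) (ldeg C (D.eval z))) ∧
    (∀ P Q, A.eval P = C.eval Q →
      ∑ z ∈ (fibre B P).filter (fun z => D.eval z = Q), ldeg B z = ldeg C Q)

/-- The Chebyshev portrait. -/
def Portrait (B D : ℂ[X]) (θ : ℂ) : Prop :=
  θ ≠ 0 ∧ B.eval θ = B.eval 0 ∧ ldeg B 0 = 1 ∧ ldeg B θ = 1 ∧
  (∀ z, B.eval z = B.eval 0 → z ≠ 0 → z ≠ θ → ldeg B z = 2) ∧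
  (∃ P', P' ≠ B.eval 0 ∧ ∀ z, B.eval z = P' → ldeg B z = 2) ∧
  D.eval θ ≠ D.eval 0 ∧ ldeg D 0 = 1 ∧ ldeg D θ = 1 ∧
  (∀ z, D.eval z = D.eval 0 ∨ D.eval z = D.eval θ → z ≠ 0 → z ≠ θ → ldeg D z = 2)

/-- SG: the key counting lemma (a form of the second theorem of Ritt). -/
def Stmt_SG : Prop :=
  ∀ (p : ℕ) (A B C D : ℂ[X]), p.Prime → A.comp B = C.comp D → 1 ≤ A.natDegree →
    1 ≤ B.natDegree → A.natDegree = D.natDegree → B.natDegree = C.natDegree →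
    (NonInj B D).Finite → Nat.Coprime D.natDegree B.natDegree → p ∣ B.natDegree →
    ¬ p ∣ ldeg D 0 → (∀ z, z ≠ 0 → D.eval z = D.eval 0 → p ∣ ldeg D z) →
    (∃ z, z ≠ 0 ∧ D.eval z = D.eval 0) →
    (∀ z, B.eval z = B.eval 0 → p ∣ ldeg B z) ∨ (p = 2 ∧ ∃ θ, Portrait B D θ)

/-- MV: moving a totally ramified factor of prime degree. -/
def Stmt_MV : Prop :=
  (∀ (p : ℕ) (X₁ Y B : ℂ[X]), p.Prime → B.natDegree = p → ¬ p ∣ X₁.natDegree →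
    X₁ ^ p = Y.comp B → ∃ α β c : ℂ, α ≠ 0 ∧ B = C α * (X - C c) ^ p + C β ∧ X₁.eval c = 0) ∧
  (∀ (p : ℕ) (X₁ Y B : ℂ[X]), p.Prime → B.natDegree = p → ¬ p ∣ X₁.natDegree →
    B.comp X₁ = Y.comp (X ^ p) →
    ∃ α β : ℂ, α ≠ 0 ∧ B = C α * (X - C (X₁.eval 0)) ^ p + C β)

/-- PW: two totally `p`-ramified values coincide. -/
def Stmt_PW : Prop :=
  ∀ (p : ℕ) (g : ℂ[X]), 2 ≤ p → 1 ≤ g.natDegree → ∀ z₁ z₂ : ℂ,
    (∀ z, g.eval z = z₁ → p ∣ ldeg g z) → (∀ z, g.eval z = z₂ → p ∣ ldeg g z) → z₁ = z₂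

/-- CC: combining two portraits. -/
def Stmt_CC : Prop :=
  ∀ (g b₁ b₂ Y₁ W D₂ : ℂ[X]) (θ₁ θ₂ : ℂ), 2 ≤ g.natDegree → g = b₁.comp Y₁ →
    g.comp b₁ = b₂.comp W → Y₁.eval 0 = 0 → W.eval 0 = 0 → Odd Y₁.natDegree →
    Odd W.natDegree → (∀ z, g.eval z = 0 → 2 ∣ ldeg g z) → g.eval 0 ≠ 0 →
    g.eval (g.eval 0) ≠ 0 → Portrait b₁ (D₂.comp W) θ₁ → Portrait b₂ D₂ θ₂ →
    (∃ z, z ≠ 0 ∧ D₂.eval z = D₂.eval 0) →
    ∃ β : ℂ, β ≠ 0 ∧ ∀ u, g.eval u = 0 ∨ g.eval u = β →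
      (ldeg g u = 1 ∧ (u = 0 ∨ u = β)) ∨ (ldeg g u = 2 ∧ u ≠ 0 ∧ u ≠ β)

/-- CT: Chebyshev polynomials and exchanging the factors. -/
def Stmt_CT : Prop :=
  ∀ α u : ℂ[X], 1 ≤ α.natDegree → 1 ≤ u.natDegree → Cheb (u.comp α) → Cheb (α.comp u)

/-- Badness of `f ^ m = a ∘ h ^ p` at the periodic zero `y` of `h`. -/
def BadP (f : ℂ[X]) (p m : ℕ) (h : ℂ[X]) (y : ℂ) : Prop :=
  (∃ a : ℂ[X], itp f m = a.comp (h ^ p)) ∧ h.eval y = 0 ∧ ∃ r, 1 ≤ r ∧ it f r y = y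

/-- RD: reduction of the `p`-part of the degree of `h`. -/
def Stmt_RD : Prop :=
  ∀ (f : ℂ[X]) (P : Set ℂ), Adm f P → ∀ (p m : ℕ) (h : ℂ[X]) (y : ℂ), p.Prime →
    BadP f p m h y → ∃ (m' : ℕ) (h' : ℂ[X]) (y' : ℂ), BadP f p m' h' y' ∧
      padicValNat p h'.natDegree < padicValNat p f.natDegree

/-- Home data: `f = α ∘ γ ^ p`, `X₁ ^ p = Y ∘ z ^ p`, `X₁ 0 = 0`. -/
structure Home (f : ℂ[X]) (p : ℕ) (α γ X₁ Y : ℂ[X]) : Prop where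
  f_eq : f = α.comp (γ ^ p)
  X0 : X₁.eval 0 = 0
  XY : X₁ ^ p = Y.comp (X ^ p)
  cop : Nat.Coprime X₁.natDegree α.natDegree
  ndvd : ¬ p ∣ X₁.natDegree

/-- HM: existence of the home data. -/
def Stmt_HM : Prop :=
  ∀ (f : ℂ[X]) (P : Set ℂ), Adm f P → ∀ (p m : ℕ) (h : ℂ[X]) (y : ℂ), p.Prime →
    BadP f p m h y → padicValNat p h.natDegree < padicValNat p f.natDegree →
    ∃ α γ X₁ Y : ℂ[X], Home f p α γ X₁ Y ∧ h = X₁.comp γ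

/-- The data at the step `j`; here `g = (γ ^ p) ∘ α`. -/
structure Step (f : ℂ[X]) (p : ℕ) (α γ X₁ Y : ℂ[X]) (j : ℕ) (b Yj Xj D Z A C' : ℂ[X])
    (c : ℂ) : Prop where
  c0 : c ≠ 0
  g_eq : itp ((γ ^ p).comp α) j = b.comp Yj
  Y_eq : Y = D.comp Yj
  Yj0 : Yj.eval 0 = 0
  YX : Yj.comp (X ^ p) = C c * Xj ^ p
  DZ : D.comp (C c * X ^ p) = Z ^ p
  deg : Yj.natDegree = Nat.gcd Y.natDegree (f.natDegree ^ j)
  sq : A.comp b = C'.comp D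
  degA : A.natDegree = D.natDegree
  degC : b.natDegree = C'.natDegree
  fin : (NonInj b D).Finite

/-- JS: existence of the data at the step `j`. -/
def Stmt_JS : Prop :=
  ∀ (f : ℂ[X]) (P : Set ℂ), Adm f P → ∀ (p m : ℕ) (a α γ X₁ Y : ℂ[X]), p.Prime →
    Home f p α γ X₁ Y → itp f m = a.comp ((X₁.comp γ) ^ p) → ∀ j : ℕ, 1 ≤ j →
    ∃ (b Yj Xj D Z A C' : ℂ[X]) (c : ℂ), Step f p α γ X₁ Y j b Yj Xj D Z A C' c

/-- JW: the steps `1` and `2` are compatible. -/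
def Stmt_JW : Prop :=
  ∀ (f : ℂ[X]) (P : Set ℂ), Adm f P → ∀ (p m : ℕ) (a α γ X₁ Y : ℂ[X]), p.Prime →
    Home f p α γ X₁ Y → itp f m = a.comp ((X₁.comp γ) ^ p) →
    ∀ (b₁ Y₁ X₁' D₁ Z₁ A₁ C₁ : ℂ[X]) (c₁ : ℂ) (b₂ Y₂ X₂' D₂ Z₂ A₂ C₂ : ℂ[X]) (c₂ : ℂ),
    Step f p α γ X₁ Y 1 b₁ Y₁ X₁' D₁ Z₁ A₁ C₁ c₁ →
    Step f p α γ X₁ Y 2 b₂ Y₂ X₂' D₂ Z₂ A₂ C₂ c₂ →
    ∃ W : ℂ[X], Y₂ = W.comp Y₁ ∧ D₁ = D₂.comp W ∧ W.eval 0 = 0 ∧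
      ((γ ^ p).comp α).comp b₁ = b₂.comp W

/-- FN: the conclusion. -/
def Stmt_FN : Prop :=
  ∀ (f : ℂ[X]) (P : Set ℂ), Adm f P → ¬ Cheb f → Bad f → Bad3 f

/-- The final theorem, sharp form. -/
def Stmt_MAIN3 : Prop :=
  ∀ (f : ℂ[X]) (t : ℂ), 2 ≤ f.natDegree → (postCrit f).Finite → t ∉ postCrit f →
    (IsBranch (IMG f t) ↔ ¬ Cheb f ∧ ¬ Bad3 f)

end PCF
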